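import Pool.Agent.Helper54.FP.Inst
import Pool.Agent.Helper55.FP.Left

/-!
# FP-4: transport of fundamental matrices along specializations
-/

set_option autoImplicit false
set_option linter.unusedSectionVars false

namespace Pool.Agent.Helper54.FP

variable {p : ℕ} [Fact p.Prime] {G : Type} [Group G] [Fintype G] [DecidableEq G]

/-- evaluation of a one variable polynomial at a polynomial expression -/
private theorem transport_eval {G R Ω : Type} [CommRing R] [CommRing Ω] (φ : R →+* Ω)
    (Y : Matrix G G Ω) (F : MvPolynomial (G × G) R) (P : Polynomial R) :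
    ev φ Y (P.eval₂ MvPolynomial.C F) = P.eval₂ φ (ev φ Y F) := by
  rw [Polynomial.hom_eval₂]
  congr 1
  ext r
  simp

/-- a nonzero integral element of a field satisfies an integral equation whose constant coefficient
does not vanish -/
private theorem transport_min {R Ω : Type} [CommRing R] [Field Ω] (φ : R →+* Ω) {x : Ω}
    (hx : x ≠ 0) (hint : φ.IsIntegralElem x) :
    ∃ P : Polynomial R, P.Monic ∧ P.eval₂ φ x = 0 ∧ φ (P.coeff 0) ≠ 0 := by
  classical
  have hex : ∃ n : ℕ, ∃ P : Polynomial R, P.Monic ∧ P.eval₂ φ x = 0 ∧ P.natDegree = n := by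
    obtain ⟨P, hP, hP0⟩ := hint
    exact ⟨_, P, hP, hP0, rfl⟩
  obtain ⟨P, hP, hP0, hPn⟩ := Nat.find_spec hex
  refine ⟨P, hP, hP0, fun hc => ?_⟩
  have hnt : Nontrivial R := φ.domain_nontrivial
  have hdeg : 0 < P.natDegree := by
    rw [Nat.pos_iff_ne_zero]
    intro h0
    have : P = 1 := hP.natDegree_eq_zero.1 h0
    rw [this, Polynomial.eval₂_one] at hP0
    exact one_ne_zero hP0
  have hdiv : P = P.divX * Polynomial.X + Polynomial.C (P.coeff 0) :=
    (Polynomial.divX_mul_X_add P).symm
  have hQn : P.divX.natDegree = P.natDegree - 1 := Polynomial.natDegree_divX_eq_natDegree_tsub_one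
  have hQ : P.divX.Monic := by
    rw [Polynomial.Monic, Polynomial.leadingCoeff, hQn, Polynomial.coeff_divX,
      Nat.sub_add_cancel hdeg]
    exact hP
  have hQ0 : P.divX.eval₂ φ x = 0 := by
    rw [hdiv, Polynomial.eval₂_add, Polynomial.eval₂_mul, Polynomial.eval₂_X, Polynomial.eval₂_C,
      hc, add_zero] at hP0
    exact (mul_eq_zero.1 hP0).resolve_right hx
  have hlt : P.divX.natDegree < Nat.find hex := by rw [hQn, ← hPn]; omega
  exact Nat.find_min hex hlt ⟨P.divX, hQ, hQ0, rfl⟩

/-- relations are reversible -/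
private theorem transport_rel {R Ω Ω' : Type} [CommRing R] [Field Ω] [Field Ω'] {φ : R →+* Ω}
    {φ' : R →+* Ω'} (hφ' : Function.Injective φ') {Y : Matrix G G Ω} {Y' : Matrix G G Ω'}
    {Ψ : Matrix G G R} (hΨ : Y.map (fun y => y ^ p) = Ψ.map φ * Y) (hrel : Rel φ Y φ' Y') :
    Rel φ' Y' φ Y := by
  intro F hF
  by_contra hne
  obtain ⟨P, -, hP0, hPc⟩ := transport_min φ hne (integral_of_frob φ Y Ψ hΨ F)
  rw [← transport_eval] at hP0
  have h1 := hrel _ hP0
  rw [transport_eval, hF, Polynomial.eval₂_at_zero] at h1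
  have h2 : P.coeff 0 = 0 := hφ' (h1.trans (map_zero _).symm)
  exact hPc (by rw [h2, map_zero])

theorem fm_transport {R Ω Ω' : Type} [CommRing R] [Field Ω] [Field Ω'] [CharP Ω p] {φ : R →+* Ω}
    {φ' : R →+* Ω'} (hφ' : Function.Injective φ') {Y : Matrix G G Ω} {Y' : Matrix G G Ω'}
    {H : Subgroup G} (h : FM p φ Y H) (hrel : Rel φ Y φ' Y') :
    FM p φ' Y' H ∧ Rel φ' Y' φ Y := by
  obtain ⟨Ψ, hΨu, hΨ⟩ := h.frob
  have hrev : Rel φ' Y' φ Y := transport_rel hφ' hΨ hrel
  refine ⟨⟨?_, ⟨Ψ, hΨu, ?_⟩, ?_, ?_⟩, hrev⟩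
  · obtain ⟨Z, hZ, -⟩ := fm_inv h
    have h1 : Y' * Z.map (ev φ' Y') = 1 := by
      ext i j
      have h2 : ev φ Y (∑ l, MvPolynomial.X (i, l) * Z l j) =
          ev φ Y (MvPolynomial.C ((1 : Matrix G G R) i j)) := by
        have h3 := congrFun (congrFun hZ i) j
        rw [Matrix.mul_apply] at h3
        simp only [Matrix.map_apply] at h3
        rw [map_sum]
        simp only [map_mul, ev_X, ev_C]
        rw [h3]
        by_cases hij : i = j
        · subst hij; simp
        · simp [Matrix.one_apply_ne hij]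
      have h4 := hrel.eq h2
      rw [map_sum] at h4
      simp only [map_mul, ev_X, ev_C] at h4
      rw [Matrix.mul_apply]
      simp only [Matrix.map_apply]
      rw [h4]
      by_cases hij : i = j
      · subst hij; simp
      · simp [Matrix.one_apply_ne hij]
    exact IsUnit.of_mul_eq_one _ h1
  · ext i j
    have h2 : ev φ Y (MvPolynomial.X (i, j) ^ p) =
        ev φ Y (∑ l, MvPolynomial.C (Ψ i l) * MvPolynomial.X (l, j)) := by
      have h3 := congrFun (congrFun hΨ i) j
      rw [Matrix.mul_apply] at h3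
      simp only [Matrix.map_apply] at h3
      rw [map_sum]
      simp only [map_mul, map_pow, ev_X, ev_C]
      exact h3
    have h4 := hrel.eq h2
    rw [map_sum] at h4
    simp only [map_mul, map_pow, ev_X, ev_C] at h4
    rw [Matrix.mul_apply]
    simp only [Matrix.map_apply]
    exact h4
  · intro g hg F hF
    have h1 := h.sym g hg F (hrev F hF)
    rw [← ev_sh] at h1 ⊢
    exact hrel _ h1
  · intro F hF
    obtain ⟨r, hr⟩ := h.fix F (fun g hg => by
      have h1 := hF g hg
      rw [← ev_sh] at h1 ⊢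
      exact hrev.eq h1)
    refine ⟨r, ?_⟩
    have h2 : ev φ Y F = ev φ Y (MvPolynomial.C r) := by rw [hr, ev_C]
    have h3 := hrel.eq h2
    rwa [ev_C] at h3

end Pool.Agent.Helper54.FP
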